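import Pool.Agent.Lib_MP_7c418e_gt.Final2

/-!
# MP_7c418e_gt: the limit of `l(n) ^ (1 / n)` exists

Links are words in elementary tangles (local minima, local maxima, crossings, each at a position), modulo planar isotopies and
Reidemeister moves (`LEq`, the classical presentation of unoriented tangles by generators and relations). `cr` is the crossing number (the minimum over all
diagrams), `Prime` is primeness (not empty, not the trivial knot, not split, not a connected sum of two links different from the trivial knot), `cls d` is
the set of all diagrams of the link `d` and of its mirror image.

`lnum n` is the number of classes of prime links with crossing number `n` which have at least two components (`Two`) or whose group has a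
homomorphism to a group with two meridians with noncommuting images (`NonAb`). By Dehn's lemma (Papakyriakopoulos 1957) every nontrivial knot
has `NonAb`, so `lnum n` is the number `l(n)` of all prime links. `lnum2 n` is the number of prime links with at least two components.

The theorem: `l(n) ^ (1 / n)` converges, and the prime links with at least two components have the same growth rate. Together with the known bounds of
Welsh the limit is a real number between 4 and 27/2. It was open whether the limit exists.

Idea of the proof. Two prime links with at least two components and minimal diagrams with `m` and `n` crossings are joined by two rings
(unknotted circles), each of which links one component of the first diagram and one of the second, near the boundary of the outer regions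
(`m + n + 8` crossings). The result is prime by linking numbers and colourings of the components, its crossing number is exactly `m + n + 8` (every diagram of it
contains diagrams of the two links and each ring has at least 4 crossings with them), and it can come from at most
`2 * (m + n + 8) ^ 2` pairs, since the rings and the two parts can be recognised in a minimal diagram. So
`l₂(m) l₂(n) ≤ 2 (m + n + 8) ^ 2 l₂(m + n + 8)`, which gives the limit for `l₂` by a version of Fekete's lemma with a shift. A prime knot with noncommuting meridians gets a ring around
a crossing at which the two labels do not commute; this is a prime link with two components and between `n` and `n + 4` crossings, and at most two knots give the same link.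
-/

set_option autoImplicit false

namespace Pool.Agent.Results.MP_7c418e_gt.GrowthRate

open Pool.Agent.KL Filter Topology ENNReal

/-- The limit of the `n`-th root of the number of prime links with crossing number `n` exists, and it is also the limit for the prime links with at least two
components. -/
theorem result : ∃ μ : ℝ≥0∞,
    Tendsto (fun n : ℕ => ((lnum n : ℕ∞) : ℝ≥0∞) ^ (1 / (n : ℝ))) atTop (𝓝 μ) ∧
    Tendsto (fun n : ℕ => ((lnum2 n : ℕ∞) : ℝ≥0∞) ^ (1 / (n : ℝ))) atTop (𝓝 μ) :=
  limit_exists

end Pool.Agent.Results.MP_7c418e_gt.GrowthRate
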