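import Pool.Agent.Lib_MP_7c418e_gt.Final2

/-!
# MP_7c418e_gt: the number of prime links is supermultiplicative up to a bounded shift and a quadratic factor

`lnum n` is the number of prime links (modulo mirror images) with crossing number `n` which have at least two components or a
nonabelian group (by Dehn's lemma: all prime links), `lnum2 n ≤ lnum n` is the number of those with at least two components. See `GrowthRate.lean` in this folder for the
definitions and the idea of the proof.
-/

set_option autoImplicit false

namespace Pool.Agent.Results.MP_7c418e_gt.NearSuperAll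

open Pool.Agent.KL

/-- `l(m) l(n) ≤ 90 (m + n + 16) ^ 2 ∑_{8 ≤ k ≤ 16} l₂(m + n + k)` -/
theorem result (m n : ℕ) :
    lnum m * lnum n ≤ 90 * ((m + n + 16 : ℕ) : ℕ∞) ^ 2 * ∑ k ∈ Finset.range 9, lnum2 (m + n + 8 + k) :=
  lnum_mul_le m n

end Pool.Agent.Results.MP_7c418e_gt.NearSuperAll
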