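import Pool.Agent.Lib_MP_7c418e_gt.Final2

/-!
# MP_7c418e_gt: supermultiplicativity for prime links with at least two components, up to the shift 8 and a quadratic factor

`lnum2 n` is the number of prime links (modulo mirror images) with crossing number `n` with at least two components. See `GrowthRate.lean` in this folder for the
definitions and the idea of the proof.
-/

set_option autoImplicit false

namespace Pool.Agent.Results.MP_7c418e_gt.NearSuperTwo

open Pool.Agent.KL

/-- `l₂(m) l₂(n) ≤ 2 (m + n + 8) ^ 2 l₂(m + n + 8)` -/
theorem result (m n : ℕ) :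
    lnum2 m * lnum2 n ≤ 2 * ((m + n + 8 : ℕ) : ℕ∞) ^ 2 * lnum2 (m + n + 8) :=
  lnum2_mul_le m n

end Pool.Agent.Results.MP_7c418e_gt.NearSuperTwo
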